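import Mathlib

set_option autoImplicit false

/-!
# Half of Christol's theorem: statements
-/

open Polynomial

namespace Pool.Agent.H599.CH

/-- the Cartier operator: the power series with the coefficients `f_{q n + r}` -/
noncomputable def La {F : Type} [Field F] (q r : ℕ) (f : PowerSeries F) : PowerSeries F :=
  PowerSeries.mk fun n => PowerSeries.coeff (q * n + r) f

/-- the Cartier operator for polynomials -/
noncomputable def Lp {F : Type} [Field F] (q r : ℕ) (c : F[X]) : F[X] :=
  ∑ n ∈ Finset.range (c.natDegree + 1), Polynomial.monomial n (c.coeff (q * n + r))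

/-- T0a -/
def T0a : Prop := ∀ (F : Type) [Field F] [Fintype F] (b : PowerSeries F) (n : ℕ),
  PowerSeries.coeff n (b ^ Fintype.card F) = if Fintype.card F ∣ n then PowerSeries.coeff (n / Fintype.card F) b else 0

/-- T0b -/
def T0b : Prop := ∀ (F : Type) [Field F] [Fintype F] (r : ℕ), r < Fintype.card F → ∀ (a b : PowerSeries F),
  La (Fintype.card F) r (a * b ^ Fintype.card F) = La (Fintype.card F) r a * b

/-- T0c -/
def T0c : Prop := ∀ (F : Type) [Field F] (q r : ℕ), 1 ≤ q → ∀ c : F[X],
  La q r (c : PowerSeries F) = ((Lp q r c : F[X]) : PowerSeries F) ∧ q * (Lp q r c).natDegree ≤ c.natDegree ∧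
    (c ≠ 0 → ∃ s < q, Lp q s c ≠ 0)

/-- T1: an additive relation with nonzero coefficient of `f` -/
def T1 : Prop := ∀ (F : Type) [Field F] [Fintype F] (f : PowerSeries F), IsAlgebraic F[X] f →
  ∃ (d : ℕ) (c : ℕ → F[X]), c 0 ≠ 0 ∧
    ∑ i ∈ Finset.range (d + 1), (c i : PowerSeries F) * f ^ (Fintype.card F) ^ i = 0

/-- T2: a finite set of power series containing `f` and closed under the Cartier operators -/
def T2 : Prop := ∀ (F : Type) [Field F] [Fintype F] (f : PowerSeries F) (d : ℕ) (c : ℕ → F[X]), c 0 ≠ 0 →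
    ∑ i ∈ Finset.range (d + 1), (c i : PowerSeries F) * f ^ (Fintype.card F) ^ i = 0 →
  ∃ S : Set (PowerSeries F), S.Finite ∧ f ∈ S ∧ ∀ g ∈ S, ∀ r < Fintype.card F, La (Fintype.card F) r g ∈ S

end Pool.Agent.H599.CH
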