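import Pool.Agent.H599.CH.Stm

set_option autoImplicit false

/-!
# Half of Christol's theorem: T0a, T0b, T0c (helper276 for helper599)
-/

open Polynomial

namespace Pool.Agent.H599.CH

namespace T0L

/-- polynomials with the same low coefficients have powers with the same low coefficients -/
theorem coeff_pow_trunc {F : Type} [Field F] (b : PowerSeries F) (q n : ℕ) :
    PowerSeries.coeff n (b ^ q) = ((PowerSeries.trunc (n + 1) b) ^ q).coeff n := by
  rw [← Polynomial.coeff_coe, Polynomial.coe_pow]
  have h := PowerSeries.trunc_trunc_pow b (n + 1) q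
  have h1 : (PowerSeries.trunc (n + 1) ((PowerSeries.trunc (n + 1) b : PowerSeries F) ^ q)).coeff n =
      (PowerSeries.trunc (n + 1) (b ^ q)).coeff n := by rw [h]
  rw [PowerSeries.coeff_trunc, PowerSeries.coeff_trunc, if_pos (Nat.lt_succ_self n),
    if_pos (Nat.lt_succ_self n)] at h1
  exact h1.symm

end T0L

open T0L in
theorem t_T0a : T0a := by
  intro F _ _ b n
  have hq : 0 < Fintype.card F := Fintype.card_pos
  rw [coeff_pow_trunc, ← FiniteField.expand_card, Polynomial.coeff_expand hq]
  split_ifs with h
  · rw [PowerSeries.coeff_trunc, if_pos]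
    exact Nat.lt_succ_of_le (Nat.div_le_self _ _)
  · rfl

theorem t_T0b : T0b := by
  intro F _ _ r hr a b
  have hq : 0 < Fintype.card F := Fintype.card_pos
  have hT := t_T0a F b
  obtain ⟨q, hqdef⟩ : ∃ q, q = Fintype.card F := ⟨_, rfl⟩
  rw [← hqdef] at hT hr hq ⊢
  ext n
  unfold La
  rw [PowerSeries.coeff_mk, PowerSeries.coeff_mul, PowerSeries.coeff_mul]
  symm
  -- the terms with second index divisible by q
  have h1 : ∑ p ∈ Finset.HasAntidiagonal.antidiagonal n,
      PowerSeries.coeff p.1 (PowerSeries.mk fun n => PowerSeries.coeff (q * n + r) a) *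
        PowerSeries.coeff p.2 b =
      ∑ p ∈ (Finset.HasAntidiagonal.antidiagonal n).image (fun p : ℕ × ℕ => (q * p.1 + r, q * p.2)),
        PowerSeries.coeff p.1 a * PowerSeries.coeff p.2 (b ^ q) := by
    rw [Finset.sum_image]
    · refine Finset.sum_congr rfl fun p _ => ?_
      rw [PowerSeries.coeff_mk, hT, if_pos (dvd_mul_right _ _), Nat.mul_div_cancel_left _ hq]
    · intro p _ p' _ h
      have h2 := Prod.ext_iff.1 h
      have h3 : q * p.1 + r = q * p'.1 + r := h2.1
      have h4 : q * p.2 = q * p'.2 := h2.2
      refine Prod.ext ?_ (Nat.eq_of_mul_eq_mul_left hq h4)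
      exact Nat.eq_of_mul_eq_mul_left hq (Nat.add_right_cancel h3)
  rw [h1]
  apply Finset.sum_subset
  · intro p hp
    rw [Finset.mem_image] at hp
    obtain ⟨p', hp', rfl⟩ := hp
    rw [Finset.HasAntidiagonal.mem_antidiagonal] at hp' ⊢
    rw [← hp']
    show q * p'.1 + r + q * p'.2 = q * (p'.1 + p'.2) + r
    ring
  · intro p hp hnp
    rw [hT]
    split_ifs with hd
    · exfalso
      apply hnp
      obtain ⟨l, hl⟩ := hd
      rw [Finset.HasAntidiagonal.mem_antidiagonal] at hp
      have hln : l ≤ n := by
        by_contra hc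
        have h5 : n + 1 ≤ l := by omega
        have h6 : q * (n + 1) ≤ q * l := Nat.mul_le_mul_left q h5
        have h7 : q * (n + 1) = q * n + q := by ring
        omega
      rw [Finset.mem_image]
      refine ⟨(n - l, l), ?_, ?_⟩
      · rw [Finset.HasAntidiagonal.mem_antidiagonal]
        show n - l + l = n
        omega
      · refine Prod.ext ?_ hl.symm
        show q * (n - l) + r = p.1
        have h8 : q * (n - l) + q * l = q * n := by
          rw [← Nat.mul_add]
          congr 1
          omega
        omega
    · rw [mul_zero]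

theorem t_T0c : T0c := by
  intro F _ q r hq c
  have hcoeff : ∀ s m : ℕ, (Lp q s c).coeff m = c.coeff (q * m + s) := by
    intro s m
    unfold Lp
    rw [Polynomial.finsetSum_coeff]
    by_cases hm : m ∈ Finset.range (c.natDegree + 1)
    · rw [Finset.sum_eq_single m]
      · rw [Polynomial.coeff_monomial, if_pos rfl]
      · intro k _ hk
        rw [Polynomial.coeff_monomial, if_neg hk]
      · intro h
        exact absurd hm h
    · rw [Finset.sum_eq_zero]
      · rw [Finset.mem_range, not_lt] at hm
        symm
        apply Polynomial.coeff_eq_zero_of_natDegree_lt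
        have h1 : 1 * m ≤ q * m := Nat.mul_le_mul_right m hq
        omega
      · intro k hk
        rw [Polynomial.coeff_monomial, if_neg]
        rintro rfl
        exact hm hk
  refine ⟨?_, ?_, ?_⟩
  · ext m
    unfold La
    rw [PowerSeries.coeff_mk, Polynomial.coeff_coe, Polynomial.coeff_coe, hcoeff]
  · by_contra hc
    rw [not_le] at hc
    have h1 : (Lp q r c).natDegree ≠ 0 := by
      intro h2
      rw [h2, mul_zero] at hc
      omega
    have h2 : (Lp q r c) ≠ 0 := by
      intro h3
      rw [h3, Polynomial.natDegree_zero] at h1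
      exact h1 rfl
    have h3 : (Lp q r c).coeff (Lp q r c).natDegree ≠ 0 := by
      rw [Polynomial.coeff_natDegree]
      exact Polynomial.leadingCoeff_ne_zero.2 h2
    rw [hcoeff] at h3
    apply h3
    apply Polynomial.coeff_eq_zero_of_natDegree_lt
    omega
  · intro h0
    refine ⟨c.natDegree % q, Nat.mod_lt _ hq, ?_⟩
    intro h1
    have h2 : (Lp q (c.natDegree % q) c).coeff (c.natDegree / q) = 0 := by
      rw [h1, Polynomial.coeff_zero]
    rw [hcoeff, Nat.div_add_mod, Polynomial.coeff_natDegree] at h2
    exact Polynomial.leadingCoeff_ne_zero.2 h0 h2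

end Pool.Agent.H599.CH
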