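import Pool.Agent.H599.CH.Stm

set_option autoImplicit false

/-!
# Half of Christol's theorem: the additive relation (task T1)
-/

open Polynomial

namespace Pool.Agent.H599.CH.H350T1

theorem dep0 {R A K L : Type} [CommRing R] [IsDomain R] [CommRing A] [IsDomain A] [Field K]
    [Field L] [Algebra R A] [Algebra R K] [IsFractionRing R K] [Algebra A L] [Algebra K L]
    [Algebra R L] [IsScalarTower R A L] [IsScalarTower R K L]
    (hinj : Function.Injective (algebraMap A L)) (f : A) (hf : IsAlgebraic R f) (e : ℕ → ℕ) :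
    ∃ (d : ℕ) (c : ℕ → R), (∃ i, i ≤ d ∧ c i ≠ 0) ∧
      ∑ i ∈ Finset.range (d + 1), c i • f ^ (e i) = 0 := by
  classical
  set f' : L := algebraMap A L f with hf'
  have h1 : IsAlgebraic R f' := hf.algebraMap
  have h2 : IsAlgebraic K f' :=
    h1.extendScalars (IsFractionRing.injective R K)
  have h3 : IsIntegral K f' := h2.isIntegral
  have hfin : Module.Finite K (Algebra.adjoin K {f'}) :=
    Module.Finite.iff_fg.2 h3.fg_adjoin_singleton
  set D := Module.finrank K (Algebra.adjoin K {f'}) with hD
  let x : Algebra.adjoin K {f'} := ⟨f', Algebra.self_mem_adjoin_singleton _ _⟩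
  have h4 : ¬ LinearIndependent K (fun i : Fin (D + 1) => x ^ (e i)) := by
    intro h
    have := h.fintype_card_le_finrank
    rw [Fintype.card_fin] at this
    omega
  have h5 : ¬ LinearIndependent K (fun i : Fin (D + 1) => f' ^ (e i)) := by
    intro h
    apply h4
    apply LinearIndependent.of_comp ((Algebra.adjoin K {f'}).val.toLinearMap)
    exact h
  have h6 : ¬ LinearIndependent R (fun i : Fin (D + 1) => f' ^ (e i)) := fun h =>
    h5 ((LinearIndependent.iff_fractionRing R K).1 h)
  obtain ⟨g, hg, i, hi⟩ := Fintype.not_linearIndependent_iff.1 h6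
  refine ⟨D, fun j => if h : j < D + 1 then g ⟨j, h⟩ else 0, ⟨i, by omega, ?_⟩, ?_⟩
  · simp only [i.2, dif_pos]
    exact hi
  · apply hinj
    rw [map_zero, map_sum, Finset.sum_range]
    rw [← hg]
    apply Finset.sum_congr rfl
    intro j _
    simp only [j.2, dif_pos]
    rw [Algebra.smul_def, map_mul, map_pow, ← IsScalarTower.algebraMap_apply, Algebra.smul_def]

theorem dep {R A : Type} [CommRing R] [IsDomain R] [CommRing A] [IsDomain A] [Algebra R A]
    [FaithfulSMul R A] (f : A) (hf : IsAlgebraic R f) (e : ℕ → ℕ) :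
    ∃ (d : ℕ) (c : ℕ → R), (∃ i, i ≤ d ∧ c i ≠ 0) ∧
      ∑ i ∈ Finset.range (d + 1), c i • f ^ (e i) = 0 := by
  have hinjAL : Function.Injective (algebraMap A (FractionRing A)) :=
    IsFractionRing.injective A (FractionRing A)
  have hinjRL : Function.Injective (algebraMap R (FractionRing A)) := by
    rw [IsScalarTower.algebraMap_eq R A (FractionRing A)]
    exact hinjAL.comp (FaithfulSMul.algebraMap_injective R A)
  have : FaithfulSMul R (FractionRing A) := (faithfulSMul_iff_algebraMap_injective _ _).2 hinjRL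
  let : Algebra (FractionRing R) (FractionRing A) := FractionRing.liftAlgebra R (FractionRing A)
  have : IsScalarTower R (FractionRing R) (FractionRing A) :=
    FractionRing.isScalarTower_liftAlgebra R (FractionRing A)
  exact dep0 (K := FractionRing R) (L := FractionRing A) hinjAL f hf e

theorem La_sum {F : Type} [Field F] (q r : ℕ) {ι : Type} (s : Finset ι) (g : ι → PowerSeries F) :
    La q r (∑ i ∈ s, g i) = ∑ i ∈ s, La q r (g i) := by
  ext n
  rw [La, PowerSeries.coeff_mk, map_sum, map_sum]
  apply Finset.sum_congr rfl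
  intro i _
  rw [La, PowerSeries.coeff_mk]

theorem La_zero {F : Type} [Field F] (q r : ℕ) : La q r (0 : PowerSeries F) = 0 := by
  ext n
  rw [La, PowerSeries.coeff_mk, map_zero, map_zero]

theorem descent (h0b : T0b) (h0c : T0c) (F : Type) [Field F] [Fintype F] (f : PowerSeries F)
    (j : ℕ) : ∀ (d : ℕ) (c : ℕ → F[X]), j ≤ d → c j ≠ 0 → (∀ i < j, c i = 0) →
      ∑ i ∈ Finset.range (d + 1), (c i : PowerSeries F) * f ^ (Fintype.card F) ^ i = 0 →
      ∃ (d : ℕ) (c : ℕ → F[X]), c 0 ≠ 0 ∧
        ∑ i ∈ Finset.range (d + 1), (c i : PowerSeries F) * f ^ (Fintype.card F) ^ i = 0 := by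
  induction j with
  | zero => exact fun d c _ hc _ hsum => ⟨d, c, hc, hsum⟩
  | succ j ih =>
    intro d c hjd hc h0 hsum
    obtain ⟨d', rfl⟩ : ∃ d', d = d' + 1 := ⟨d - 1, by omega⟩
    have hq : 1 ≤ Fintype.card F := Fintype.card_pos
    obtain ⟨-, -, h1⟩ := h0c F (Fintype.card F) 0 hq (c (j + 1))
    obtain ⟨s, hs, hsc⟩ := h1 hc
    refine ih d' (fun i => Lp (Fintype.card F) s (c (i + 1))) (by omega) hsc ?_ ?_
    · intro i hi
      rw [h0 (i + 1) (by omega), Lp]
      simp
    · rw [Finset.sum_range_succ', h0 0 (Nat.succ_pos j)] at hsum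
      rw [Polynomial.coe_zero, zero_mul, add_zero] at hsum
      have h2 := congrArg (La (Fintype.card F) s) hsum
      rw [La_sum, La_zero] at h2
      rw [← h2]
      apply Finset.sum_congr rfl
      intro i _
      rw [pow_succ, pow_mul, h0b F s hs, (h0c F (Fintype.card F) s hq (c (i + 1))).1]

end Pool.Agent.H599.CH.H350T1

namespace Pool.Agent.H599.CH

theorem t_T1 (h0a : T0a) (h0b : T0b) (h0c : T0c) : T1 := by
  intro F _ _ f hf
  have hmap : ∀ p : F[X], algebraMap F[X] (PowerSeries F) p = (p : PowerSeries F) := fun p => rfl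
  have : FaithfulSMul F[X] (PowerSeries F) := by
    rw [faithfulSMul_iff_algebraMap_injective]
    intro a b hab
    rw [hmap, hmap] at hab
    exact Polynomial.coe_injective F hab
  obtain ⟨d, c, ⟨i, hid, hci⟩, hsum⟩ := H350T1.dep f hf (fun i => (Fintype.card F) ^ i)
  have hex : ∃ i, c i ≠ 0 := ⟨i, hci⟩
  classical
  refine H350T1.descent h0b h0c F f (Nat.find hex) d c ((Nat.find_min' hex hci).trans hid)
    (Nat.find_spec hex) (fun k hk => ?_) ?_
  · by_contra hcon
    exact Nat.find_min hex hk hcon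
  · rw [← hsum]
    apply Finset.sum_congr rfl
    intro k _
    rw [Algebra.smul_def, hmap]

end Pool.Agent.H599.CH

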