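import Pool.Agent.H599.CH.Stm

set_option autoImplicit false

/-!
# Half of Christol's theorem: the finite set of power series closed under the Cartier operators
-/

open Polynomial

namespace Pool.Agent.H599.CH

namespace T2x

variable {F : Type} [Field F]

theorem La_add (q r : ℕ) (f g : PowerSeries F) : La q r (f + g) = La q r f + La q r g := by
  ext n
  simp [La]

theorem La_zero (q r : ℕ) : La q r (0 : PowerSeries F) = 0 := by
  ext n
  simp [La]

theorem La_sum (q r : ℕ) (s : Finset ℕ) (g : ℕ → PowerSeries F) :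
    La q r (∑ i ∈ s, g i) = ∑ i ∈ s, La q r (g i) := by
  classical
  induction s using Finset.induction_on with
  | empty => rw [Finset.sum_empty, Finset.sum_empty, La_zero]
  | insert a s ha ih => rw [Finset.sum_insert ha, Finset.sum_insert ha, La_add, ih]

/-- the generators -/
noncomputable def bb (q d : ℕ) (c0 : F[X]) (f : PowerSeries F) (i : ℕ) : PowerSeries F :=
  (c0 : PowerSeries F) ^ (q ^ d - q ^ i) * f ^ q ^ i

/-- the finite set -/
def SS (q d D : ℕ) (c0 : F[X]) (f : PowerSeries F) : Set (PowerSeries F) :=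
  {h | ∃ H : ℕ → F[X], (∀ i, (H i).natDegree ≤ D) ∧ (c0 : PowerSeries F) ^ q ^ d * h =
    ∑ i ∈ Finset.range (d + 1), (H i : PowerSeries F) * bb q d c0 f i}

theorem fin_poly [Finite F] (D : ℕ) : {p : F[X] | p.natDegree ≤ D}.Finite := by
  refine Set.Finite.of_finite_image (f := fun (p : F[X]) (j : Fin (D + 1)) => p.coeff j)
    (Set.toFinite _) ?_
  intro p hp p' hp' h
  ext n
  by_cases hn : n < D + 1
  · exact congrFun h ⟨n, hn⟩
  · have h1 : p.natDegree < n := lt_of_le_of_lt hp (by omega)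
    have h2 : p'.natDegree < n := lt_of_le_of_lt hp' (by omega)
    rw [Polynomial.coeff_eq_zero_of_natDegree_lt h1, Polynomial.coeff_eq_zero_of_natDegree_lt h2]

theorem coe_ne {c0 : F[X]} (h0 : c0 ≠ 0) : (c0 : PowerSeries F) ≠ 0 := by
  intro h
  apply h0
  exact Polynomial.coe_injective F (by rw [h, Polynomial.coe_zero])

theorem SS_finite [Finite F] (q d D : ℕ) {c0 : F[X]} (h0 : c0 ≠ 0) (f : PowerSeries F) :
    (SS q d D c0 f).Finite := by
  have hfin : Finite {p : F[X] | p.natDegree ≤ D} := (fin_poly (F := F) D).to_subtype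
  have hfin2 : (⋃ a : Fin (d + 1) → {p : F[X] | p.natDegree ≤ D},
      {h : PowerSeries F | (c0 : PowerSeries F) ^ q ^ d * h =
        ∑ i : Fin (d + 1), ((a i : F[X]) : PowerSeries F) * bb q d c0 f i}).Finite := by
    refine Set.finite_iUnion fun a => Set.Subsingleton.finite ?_
    intro x hx y hy
    exact mul_left_cancel₀ (pow_ne_zero _ (coe_ne h0)) (hx.trans hy.symm)
  refine hfin2.subset ?_
  rintro h ⟨H, hH, he⟩
  refine Set.mem_iUnion.2 ⟨fun i => ⟨H i, hH i⟩, ?_⟩
  rw [Finset.sum_range] at he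
  exact he

/-- the coefficients of the reduced relation -/
noncomputable def ee (q : ℕ) (c : ℕ → F[X]) (i : ℕ) : F[X] := -(c i * c 0 ^ (q ^ i - 2))

theorem bb_succ (q d : ℕ) (c0 : F[X]) (f : PowerSeries F) (i : ℕ) :
    bb q (d + 1) c0 f (i + 1) = bb q d c0 f i ^ q := by
  rw [bb, bb, mul_pow, ← pow_mul, ← pow_mul, Nat.sub_mul, ← pow_succ, ← pow_succ]

theorem bb_up {q : ℕ} (hq : 2 ≤ q) (d : ℕ) (c0 : F[X]) (f : PowerSeries F) {i : ℕ} (hi : i ≤ d) :
    bb q (d + 1) c0 f i = (c0 : PowerSeries F) ^ (q ^ (d + 1) - q ^ d) * bb q d c0 f i := by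
  rw [bb, bb, ← mul_assoc, ← pow_add]
  have h1 : q ^ i ≤ q ^ d := Nat.pow_le_pow_right (by omega) hi
  have h2 : q ^ d ≤ q ^ (d + 1) := Nat.pow_le_pow_right (by omega) (Nat.le_succ d)
  have h3 : q ^ (d + 1) - q ^ d + (q ^ d - q ^ i) = q ^ (d + 1) - q ^ i := by omega
  rw [h3]

theorem reduce {q : ℕ} (hq : 2 ≤ q) (d : ℕ) (c : ℕ → F[X]) (f : PowerSeries F)
    (hrel : ∑ i ∈ Finset.range (d + 1 + 1), (c i : PowerSeries F) * f ^ q ^ i = 0) :
    bb q (d + 1) (c 0) f 0 =
      ∑ i ∈ Finset.range (d + 1), (ee q c (i + 1) : PowerSeries F) * bb q (d + 1) (c 0) f (i + 1) := by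
  rw [Finset.sum_range_succ', pow_zero, pow_one] at hrel
  have h1 : (c 0 : PowerSeries F) * f =
      -∑ i ∈ Finset.range (d + 1), (c (i + 1) : PowerSeries F) * f ^ q ^ (i + 1) :=
    eq_neg_of_add_eq_zero_right hrel
  have hq2 : 2 ≤ q ^ (d + 1) := by
    calc 2 ≤ q := hq
      _ = q ^ 1 := (pow_one q).symm
      _ ≤ q ^ (d + 1) := Nat.pow_le_pow_right (by omega) (by omega)
  have h2 : bb q (d + 1) (c 0) f 0 =
      (c 0 : PowerSeries F) ^ (q ^ (d + 1) - 2) * ((c 0 : PowerSeries F) * f) := by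
    rw [bb, pow_zero, pow_one, ← mul_assoc, ← pow_succ]
    congr 2
    omega
  rw [h2, h1, mul_neg, Finset.mul_sum, ← Finset.sum_neg_distrib]
  refine Finset.sum_congr rfl fun i hi => ?_
  have hi' : i < d + 1 := Finset.mem_range.1 hi
  have h3 : 2 ≤ q ^ (i + 1) := by
    calc 2 ≤ q := hq
      _ = q ^ 1 := (pow_one q).symm
      _ ≤ q ^ (i + 1) := Nat.pow_le_pow_right (by omega) (by omega)
  have h4 : q ^ (i + 1) ≤ q ^ (d + 1) := Nat.pow_le_pow_right (by omega) (by omega)
  have h5 : q ^ (d + 1) - 2 = (q ^ (i + 1) - 2) + (q ^ (d + 1) - q ^ (i + 1)) := by omega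
  rw [h5, pow_add, ee, bb]
  push_cast
  ring

theorem SS_closed {q : ℕ} (hq : 2 ≤ q) (r : ℕ)
    (hb : ∀ a b : PowerSeries F, La q r (a * b ^ q) = La q r a * b) (hc : T0c) (d D : ℕ)
    (c : ℕ → F[X]) (f : PowerSeries F)
    (hrel : ∑ i ∈ Finset.range (d + 1 + 1), (c i : PowerSeries F) * f ^ q ^ i = 0)
    (hD : ∀ i < d + 1, (ee q c (i + 1)).natDegree ≤ D) {h : PowerSeries F}
    (hh : h ∈ SS q (d + 1) D (c 0) f) : La q r h ∈ SS q (d + 1) D (c 0) f := by
  obtain ⟨H, hH, he⟩ := hh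
  obtain ⟨g, hg⟩ : ∃ g : ℕ → F[X], ∀ i, g i = H 0 * ee q c (i + 1) + H (i + 1) :=
    ⟨_, fun _ => rfl⟩
  -- the reduced expression
  have hA : (c 0 : PowerSeries F) ^ q ^ (d + 1) * h =
      ∑ i ∈ Finset.range (d + 1), (g i : PowerSeries F) * bb q d (c 0) f i ^ q := by
    rw [he, Finset.sum_range_succ', reduce hq d c f hrel, Finset.mul_sum,
      ← Finset.sum_add_distrib]
    refine Finset.sum_congr rfl fun i _ => ?_
    rw [← bb_succ, hg]
    push_cast
    ring
  have hB : (c 0 : PowerSeries F) ^ q ^ (d + 1) * h =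
      h * ((c 0 : PowerSeries F) ^ q ^ d) ^ q := by
    rw [← pow_mul, ← pow_succ, mul_comm]
  have hC : La q r h * (c 0 : PowerSeries F) ^ q ^ d =
      ∑ i ∈ Finset.range (d + 1), ((Lp q r (g i) : F[X]) : PowerSeries F) * bb q d (c 0) f i := by
    rw [← hb, ← hB, hA, La_sum]
    refine Finset.sum_congr rfl fun i _ => ?_
    rw [hb, (hc F q r (by omega) (g i)).1]
  refine ⟨fun i => if i < d + 1 then Lp q r (g i) else 0, fun i => ?_, ?_⟩
  · by_cases hi : i < d + 1
    · simp only [if_pos hi]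
      have h1 := (hc F q r (by omega) (g i)).2.1
      have h2 : (g i).natDegree ≤ D + D := by
        rw [hg]
        refine (Polynomial.natDegree_add_le _ _).trans (max_le ?_ ?_)
        · exact Polynomial.natDegree_mul_le.trans (Nat.add_le_add (hH 0) (hD i hi))
        · exact (hH (i + 1)).trans (Nat.le_add_left _ _)
      by_contra hcon
      push Not at hcon
      have h3 : 2 * (Lp q r (g i)).natDegree ≤ q * (Lp q r (g i)).natDegree :=
        Nat.mul_le_mul_right _ hq
      omega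
    · simp only [if_neg hi, Polynomial.natDegree_zero]
      exact Nat.zero_le _
  · have h1 : q ^ d ≤ q ^ (d + 1) := Nat.pow_le_pow_right (by omega) (Nat.le_succ d)
    have h2 : (c 0 : PowerSeries F) ^ q ^ (d + 1) * La q r h =
        (c 0 : PowerSeries F) ^ (q ^ (d + 1) - q ^ d) *
          (La q r h * (c 0 : PowerSeries F) ^ q ^ d) := by
      rw [mul_comm (La q r h), ← mul_assoc, ← pow_add, Nat.sub_add_cancel h1]
    rw [h2, hC, Finset.mul_sum, Finset.sum_range_succ (n := d + 1)]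
    beta_reduce
    rw [if_neg (lt_irrefl _), Polynomial.coe_zero, zero_mul, add_zero]
    refine Finset.sum_congr rfl fun i hi => ?_
    have hi' : i < d + 1 := Finset.mem_range.1 hi
    rw [if_pos hi', bb_up hq d (c 0) f (Nat.lt_succ_iff.1 hi')]
    ring

theorem SS_self {q : ℕ} (hq : 2 ≤ q) (d D : ℕ) (c0 : F[X]) (f : PowerSeries F)
    (hD : c0.natDegree ≤ D) : f ∈ SS q d D c0 f := by
  refine ⟨fun i => if i = 0 then c0 else 0, fun i => ?_, ?_⟩
  · by_cases hi : i = 0
    · simp only [if_pos hi]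
      exact hD
    · simp only [if_neg hi, Polynomial.natDegree_zero]
      exact Nat.zero_le _
  · rw [Finset.sum_eq_single 0]
    · beta_reduce
      rw [if_pos rfl, bb, pow_zero, pow_one, ← mul_assoc, ← pow_succ']
      have h1 : 1 ≤ q ^ d := Nat.one_le_pow _ _ (by omega)
      rw [Nat.sub_add_cancel h1]
    · intro i _ hi
      beta_reduce
      rw [if_neg hi, Polynomial.coe_zero, zero_mul]
    · intro h0
      exact absurd (Finset.mem_range.2 (Nat.succ_pos d)) h0

end T2x

open T2x in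
theorem t_T2 (h0b : T0b) (h0c : T0c) : T2 := by
  intro F _ _ f d c hc0 hrel
  have hq : 2 ≤ Fintype.card F := Fintype.one_lt_card
  rcases Nat.eq_zero_or_pos d with hd | hd
  · subst hd
    rw [zero_add, Finset.sum_range_one, pow_zero, pow_one] at hrel
    have hf : f = 0 := (mul_eq_zero.1 hrel).resolve_left (coe_ne hc0)
    refine ⟨{0}, Set.finite_singleton 0, hf, ?_⟩
    rintro g hg r _
    rw [Set.mem_singleton_iff] at hg ⊢
    rw [hg, La_zero]
  · obtain ⟨d', rfl⟩ : ∃ d', d = d' + 1 := ⟨d - 1, by omega⟩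
    refine ⟨SS (Fintype.card F) (d' + 1) (max (c 0).natDegree ((Finset.range (d' + 1)).sup
      fun i => (ee (Fintype.card F) c (i + 1)).natDegree)) (c 0) f, SS_finite _ _ _ hc0 f,
      SS_self hq _ _ _ _ (le_max_left _ _), ?_⟩
    intro g hg r hr
    refine SS_closed hq r (fun a b => h0b F r hr a b) h0c d' _ c f hrel ?_ hg
    intro i hi
    exact (Finset.le_sup (f := fun i => (ee (Fintype.card F) c (i + 1)).natDegree)
      (Finset.mem_range.2 hi)).trans (le_max_right _ _)

end Pool.Agent.H599.CH
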